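import Mathlib

set_option autoImplicit false

/-! CY/ANN: real inequalities -/

namespace Pool.Agent.N951.CY

open MeasureTheory Set Metric

lemma rpow_le_exp {β : ℝ} (hβ : 0 < β) : ∃ C : ℝ, 0 < C ∧ ∀ x : ℝ, 0 ≤ x →
    x ^ β ≤ C * Real.exp x := by
  set n := ⌈β⌉₊ with hn
  refine ⟨1 + n.factorial, by positivity, fun x hx => ?_⟩
  have he : 1 ≤ Real.exp x := Real.one_le_exp hx
  rcases le_total x 1 with h1 | h1
  · have h2 : x ^ β ≤ 1 := Real.rpow_le_one hx h1 hβ.le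
    have h3 : (1 : ℝ) ≤ 1 + n.factorial := by
      have : (0 : ℝ) ≤ n.factorial := by positivity
      linarith
    nlinarith
  · have h2 : x ^ β ≤ x ^ (n : ℝ) := Real.rpow_le_rpow_of_exponent_le h1 (Nat.le_ceil β)
    rw [Real.rpow_natCast] at h2
    have h3 := Real.pow_div_factorial_le_exp x hx n
    rw [div_le_iff₀ (by positivity)] at h3
    nlinarith [Real.exp_pos x]

lemma bound0 {β : ℝ} (hβ : 0 < β) : ∃ C : ℝ, 0 < C ∧ ∀ y : ℝ, 0 ≤ y →
    Real.exp (-(Real.pi * y ^ 2)) * (1 + y ^ β) ^ 2 ≤ C := by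
  obtain ⟨C, hC, h⟩ := rpow_le_exp hβ
  refine ⟨2 * (1 + C), by positivity, fun y hy => ?_⟩
  have h1 := h (y ^ 2) (by positivity)
  have h2 : (y ^ 2) ^ β = (y ^ β) ^ 2 := by
    rw [← Real.rpow_natCast y 2, ← Real.rpow_natCast (y ^ β) 2, ← Real.rpow_mul hy,
      ← Real.rpow_mul hy, mul_comm]
  rw [h2] at h1
  have h3 : (1 + y ^ β) ^ 2 ≤ 2 * (1 + (y ^ β) ^ 2) := by nlinarith [sq_nonneg (1 - y ^ β)]
  have h4 : Real.exp (-(Real.pi * y ^ 2)) ≤ Real.exp (-(y ^ 2)) := by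
    rw [Real.exp_le_exp]
    have := Real.pi_gt_three
    nlinarith [sq_nonneg y]
  have h5 : Real.exp (-(y ^ 2)) ≤ 1 := by
    rw [Real.exp_le_one_iff]
    nlinarith [sq_nonneg y]
  have h6 : Real.exp (-(y ^ 2)) * (y ^ β) ^ 2 ≤ C := by
    calc Real.exp (-(y ^ 2)) * (y ^ β) ^ 2 ≤ Real.exp (-(y ^ 2)) * (C * Real.exp (y ^ 2)) := by
          gcongr
      _ = C * (Real.exp (-(y ^ 2)) * Real.exp (y ^ 2)) := by ring
      _ = C := by rw [← Real.exp_add, neg_add_cancel, Real.exp_zero, mul_one]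
  calc Real.exp (-(Real.pi * y ^ 2)) * (1 + y ^ β) ^ 2
      ≤ Real.exp (-(y ^ 2)) * (2 * (1 + (y ^ β) ^ 2)) := by gcongr
    _ = 2 * (Real.exp (-(y ^ 2)) + Real.exp (-(y ^ 2)) * (y ^ β) ^ 2) := by ring
    _ ≤ 2 * (1 + C) := by linarith

lemma psi_step {a Q : ℝ} (ha : 0 < a) (hQ : 1 < Q) :
    a / (1 + a) ^ 2 ≤ Q / (Q - 1) * (Q * a / (1 + Q * a) - a / (1 + a)) := by
  have h1 : Q / (Q - 1) * (Q * a / (1 + Q * a) - a / (1 + a)) = Q * a / ((1 + Q * a) * (1 + a)) := by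
    have : Q - 1 ≠ 0 := by linarith
    have : 1 + Q * a ≠ 0 := by positivity
    have : 1 + a ≠ 0 := by positivity
    field_simp
    ring
  rw [h1, div_le_div_iff₀ (by positivity) (by positivity)]
  have h2 : 0 ≤ a * (1 + a) * (Q - 1) := by
    have : 0 < Q - 1 := by linarith
    positivity
  nlinarith

/-- the sum over the dyadic shells -/
lemma sum_bound {β : ℝ} (hβ : 0 < β) : ∃ C : ℝ, 0 < C ∧ ∀ s : ℝ, 0 < s → ∀ N : ℕ,
    ∑ j ∈ Finset.range N, (2 : ℝ) ^ ((j : ℝ) * β) * Real.exp (-(Real.pi * s ^ 2 * 4 ^ j)) ≤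
      C * s ^ (-β) := by
  obtain ⟨C, hC, h⟩ := bound0 hβ
  have hQ : 1 < (2 : ℝ) ^ β := Real.one_lt_rpow (by norm_num) hβ
  set Q : ℝ := (2 : ℝ) ^ β with hQd
  have hQ1 : 0 < Q - 1 := by linarith
  refine ⟨C * (Q / (Q - 1)), by positivity, fun s hs N => ?_⟩
  set a : ℕ → ℝ := fun j => ((2 : ℝ) ^ j * s) ^ β with ha
  have ha0 : ∀ j, 0 < a j := fun j => by simp only [ha]; positivity
  have ha1 : ∀ j, a (j + 1) = Q * a j := by
    intro j
    simp only [ha]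
    rw [pow_succ, hQd, ← Real.mul_rpow (by norm_num) (by positivity)]
    congr 1
    ring
  have hs1 : 0 < s ^ (-β) := Real.rpow_pos_of_pos hs _
  have hterm : ∀ j : ℕ, (2 : ℝ) ^ ((j : ℝ) * β) * Real.exp (-(Real.pi * s ^ 2 * 4 ^ j)) ≤
      s ^ (-β) * (C * (Q / (Q - 1) * (a (j + 1) / (1 + a (j + 1)) - a j / (1 + a j)))) := by
    intro j
    have e1 : (2 : ℝ) ^ ((j : ℝ) * β) = s ^ (-β) * a j := by
      simp only [ha]
      rw [Real.mul_rpow (by positivity) hs.le, Real.rpow_mul (by norm_num), Real.rpow_natCast,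
        Real.rpow_neg hs.le]
      have : s ^ β ≠ 0 := (Real.rpow_pos_of_pos hs β).ne'
      field_simp
    have e2 : Real.pi * s ^ 2 * 4 ^ j = Real.pi * ((2 : ℝ) ^ j * s) ^ 2 := by
      rw [mul_pow, ← pow_mul, mul_comm j 2, pow_mul]
      norm_num
      ring
    have e3 := h ((2 : ℝ) ^ j * s) (by positivity)
    have e4 : Real.exp (-(Real.pi * ((2 : ℝ) ^ j * s) ^ 2)) ≤ C / (1 + a j) ^ 2 := by
      rw [le_div_iff₀ (by have := ha0 j; positivity)]
      exact e3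
    have e5 := psi_step (ha0 j) hQ
    rw [← ha1 j] at e5
    rw [e1, e2, mul_assoc]
    refine mul_le_mul_of_nonneg_left ?_ hs1.le
    calc a j * Real.exp (-(Real.pi * ((2 : ℝ) ^ j * s) ^ 2)) ≤ a j * (C / (1 + a j) ^ 2) := by
          have := ha0 j
          gcongr
      _ = C * (a j / (1 + a j) ^ 2) := by ring
      _ ≤ _ := mul_le_mul_of_nonneg_left e5 hC.le
  refine (Finset.sum_le_sum fun j _ => hterm j).trans ?_
  rw [← Finset.mul_sum, ← Finset.mul_sum, ← Finset.mul_sum,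
    Finset.sum_range_sub (fun j => a j / (1 + a j))]
  have h1 : a N / (1 + a N) - a 0 / (1 + a 0) ≤ 1 := by
    have h2 : a N / (1 + a N) ≤ 1 := by
      rw [div_le_one (by have := ha0 N; positivity)]
      linarith
    have h3 : 0 ≤ a 0 / (1 + a 0) := by have := ha0 0; positivity
    linarith
  calc s ^ (-β) * (C * (Q / (Q - 1) * (a N / (1 + a N) - a 0 / (1 + a 0)))) ≤
        s ^ (-β) * (C * (Q / (Q - 1) * 1)) := by
        gcongr
    _ = _ := by ring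

end Pool.Agent.N951.CY
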