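import Pool.Agent.N720.SL.Stm
import Pool.Agent.H789R2.FR.Smooth
import Pool.Agent.H789R2.FR.Caps
import Pool.Agent.H789R2.FR.Sph
import Pool.Agent.N951.CY.A1

set_option autoImplicit false

/-! CY/ANN: the `L²` bound on annuli -/

namespace Pool.Agent.N951.CY

open MeasureTheory Set Metric Complex
open scoped ENNReal NNReal RealInnerProductSpace
open Pool.Agent.H789R2.FR (sg sg_finite sg_ae cap_lower decay cap_meas)
open Pool.Agent.N720.SL

lemma ex_norm (θ : ℝ) : ‖ex θ‖ = 1 := by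
  unfold ex
  exact Complex.norm_exp_ofReal_mul_I _

lemma ex_cont : Continuous ex := by
  unfold ex
  fun_prop

section
variable {k : ℕ} {ν : Measure (E k)} {g : E k → ℂ}

lemma hat_cont (hm : Measurable g) (hg : Integrable g ν) : Continuous (hat ν g) := by
  unfold hat
  refine continuous_of_dominated (bound := fun ξ => ‖g ξ‖) ?_ ?_ hg.norm ?_
  · intro x
    exact (hm.mul (ex_cont.measurable.comp (by fun_prop))).aestronglyMeasurable
  · intro x
    refine Filter.Eventually.of_forall fun ξ => ?_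
    rw [norm_mul, ex_norm, mul_one]
  · refine Filter.Eventually.of_forall fun ξ => ?_
    exact continuous_const.mul (ex_cont.comp (by fun_prop))

lemma hat_le (x : E k) : ‖hat ν g x‖ ≤ ∫ ξ, ‖g ξ‖ ∂ν := by
  unfold hat
  refine (norm_integral_le_integral_norm _).trans (le_of_eq ?_)
  refine integral_congr_ae (Filter.Eventually.of_forall fun ξ => ?_)
  simp only
  rw [norm_mul, ex_norm, mul_one]

end

lemma gauss_int {k : ℕ} (c : E k) {l : ℝ} (hl : 0 < l) :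
    Integrable (fun w : E k => Real.exp (-(Real.pi * ‖w - c‖ ^ 2 / l ^ 2))) := by
  have hb : 0 < (((Real.pi / l ^ 2 : ℝ) : ℂ)).re := by
    rw [Complex.ofReal_re]
    positivity
  have h := (GaussianFourier.integrable_cexp_neg_mul_sq_norm_add (V := E k) hb 0 0).norm
  have h3 : Integrable (fun v : E k => Real.exp (-(Real.pi * ‖v‖ ^ 2 / l ^ 2))) := by
    refine h.congr (Filter.Eventually.of_forall fun v => ?_)
    simp only
    rw [zero_mul, add_zero, Complex.norm_exp]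
    congr 1
    have : (-((Real.pi / l ^ 2 : ℝ) : ℂ) * (‖v‖ : ℂ) ^ 2) =
        ((-(Real.pi / l ^ 2 * ‖v‖ ^ 2) : ℝ) : ℂ) := by
      push_cast
      ring
    rw [this, Complex.ofReal_re]
    ring
  exact h3.comp_sub_right c

lemma exists_unit (k : ℕ) (hk : 2 ≤ k) : ∃ y : E k, ‖y‖ = 1 :=
  ⟨EuclideanSpace.single ⟨0, by omega⟩ 1, by simp⟩

lemma ann_low (k : ℕ) (hk : 2 ≤ k) : ∃ c : ℝ, 0 < c ∧ ∀ δ r : ℝ, 0 < δ → δ ≤ r → ∀ u : E k,
    r - δ ≤ ‖u‖ → ‖u‖ ≤ r → ENNReal.ofReal (c * (δ / r) ^ (k - 1)) ≤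
      ∫⁻ x, ENNReal.ofReal (Real.exp (-(Real.pi * ‖u - r • x‖ ^ 2 / δ ^ 2))) ∂(sg k) := by
  have := sg_finite k
  obtain ⟨c, hc, hcap⟩ := cap_lower k hk
  refine ⟨Real.exp (-(4 * Real.pi)) * c, by positivity, fun δ r hδ hδr u hu1 hu2 => ?_⟩
  have hr : 0 < r := hδ.trans_le hδr
  have hs1 : δ / r ≤ 1 := (div_le_one hr).2 hδr
  obtain ⟨y, hy, huy⟩ : ∃ y : E k, ‖y‖ = 1 ∧ ‖u - r • y‖ ≤ δ := by
    by_cases hu : u = 0
    · obtain ⟨y, hy⟩ := exists_unit k hk
      refine ⟨y, hy, ?_⟩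
      rw [hu, norm_zero] at hu1
      rw [hu, zero_sub, norm_neg, norm_smul, hy, mul_one, Real.norm_of_nonneg hr.le]
      linarith
    · have hu0 : 0 < ‖u‖ := norm_pos_iff.2 hu
      refine ⟨‖u‖⁻¹ • u, ?_, ?_⟩
      · rw [norm_smul, norm_inv, norm_norm, inv_mul_cancel₀ hu0.ne']
      · have e1 : u - r • (‖u‖⁻¹ • u) = (1 - r * ‖u‖⁻¹) • u := by
          rw [sub_smul, one_smul, smul_smul]
        rw [e1, norm_smul, Real.norm_eq_abs]
        have e2 : |1 - r * ‖u‖⁻¹| * ‖u‖ = |‖u‖ - r| := by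
          have e3 : ‖u‖ - r = (1 - r * ‖u‖⁻¹) * ‖u‖ := by field_simp
          rw [e3, abs_mul, abs_of_pos hu0]
        rw [e2, abs_le]
        constructor <;> linarith
  have hcap' := hcap (δ / r) (by positivity) hs1 y hy
  set S : Set (E k) := {w | ‖y - w‖ < δ / r} with hS
  have hSm : MeasurableSet S := cap_meas _ _
  have h1 : ∫⁻ _ in S, ENNReal.ofReal (Real.exp (-(4 * Real.pi))) ∂(sg k) ≤
      ∫⁻ x, ENNReal.ofReal (Real.exp (-(Real.pi * ‖u - r • x‖ ^ 2 / δ ^ 2))) ∂(sg k) := by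
    refine le_trans ?_ (setLIntegral_le_lintegral S _)
    refine setLIntegral_mono' hSm fun x hx => ?_
    apply ENNReal.ofReal_le_ofReal
    rw [Real.exp_le_exp, neg_le_neg_iff]
    have h2 : ‖u - r • x‖ ≤ 2 * δ := by
      have e1 : u - r • x = (u - r • y) + r • (y - x) := by
        rw [smul_sub]
        abel
      have e2 : ‖r • (y - x)‖ ≤ δ := by
        rw [norm_smul, Real.norm_of_nonneg hr.le]
        have hx' : ‖y - x‖ < δ / r := hx
        rw [lt_div_iff₀ hr] at hx'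
        linarith
      rw [e1]
      refine (norm_add_le _ _).trans ?_
      linarith
    have h3 : ‖u - r • x‖ ^ 2 ≤ (2 * δ) ^ 2 := pow_le_pow_left₀ (norm_nonneg _) h2 2
    rw [div_le_iff₀ (by positivity)]
    have := Real.pi_pos
    nlinarith
  refine le_trans ?_ h1
  rw [setLIntegral_const, mul_assoc, ENNReal.ofReal_mul (Real.exp_pos _).le]
  gcongr
  rw [← ofReal_measureReal]
  exact ENNReal.ofReal_le_ofReal hcap'

/-- decay of the Fourier transform of the sphere -/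
lemma sig (k : ℕ) (hk : 2 ≤ k) : ∃ C : ℝ, 0 < C ∧ ∀ (r : ℝ) (z : E k), 0 < r →
    ‖∫ x, ex ⟪r • x, z⟫ ∂(sg k)‖ ≤ C ∧ (z ≠ 0 →
    ‖∫ x, ex ⟪r • x, z⟫ ∂(sg k)‖ ≤ C * (r * ‖z‖) ^ (-((k : ℝ) - 1) / 2)) := by
  have := sg_finite k
  obtain ⟨C, hC, hdec⟩ := decay k hk
  have hreal : 0 ≤ (sg k).real univ := measureReal_nonneg
  refine ⟨(sg k).real univ + C, by positivity, fun r z hr => ⟨?_, fun hz => ?_⟩⟩
  · refine (norm_integral_le_integral_norm _).trans ?_
    simp_rw [ex_norm]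
    rw [integral_const, smul_eq_mul, mul_one]
    linarith
  · have hz0 : 0 < ‖z‖ := norm_pos_iff.2 hz
    have h1 : ∫ x, ex ⟪r • x, z⟫ ∂(sg k) =
        Pool.Agent.H789R2.FR.T (fun _ : E k => (1 : ℂ)) ((-(2 * Real.pi * r)) • z) := by
      unfold Pool.Agent.H789R2.FR.T ex
      refine integral_congr_ae (Filter.Eventually.of_forall fun x => ?_)
      simp only
      rw [mul_one, inner_smul_left, inner_smul_left, real_inner_comm]
      congr 1
      simp only [conj_trivial]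
      push_cast
      ring
    have h2 : ((-(2 * Real.pi * r)) • z : E k) ≠ 0 := by
      refine smul_ne_zero ?_ hz
      have := Real.pi_pos
      have : 0 < 2 * Real.pi * r := by positivity
      linarith
    have h3 := hdec _ h2
    rw [h1]
    have h4 : ‖(-(2 * Real.pi * r)) • z‖ = 2 * Real.pi * (r * ‖z‖) := by
      rw [norm_smul, norm_neg, Real.norm_of_nonneg (by positivity)]
      ring
    rw [h4] at h3
    have hexp : -((k : ℝ) - 1) / 2 ≤ 0 := by
      have : (2 : ℝ) ≤ k := by exact_mod_cast hk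
      linarith
    have h5 : (2 * Real.pi * (r * ‖z‖)) ^ (-((k : ℝ) - 1) / 2) ≤
        (r * ‖z‖) ^ (-((k : ℝ) - 1) / 2) := by
      apply Real.rpow_le_rpow_of_nonpos (by positivity) _ hexp
      have := Real.pi_gt_three
      nlinarith [mul_pos hr hz0]
    have h6 : 0 ≤ (r * ‖z‖) ^ (-((k : ℝ) - 1) / 2) := by positivity
    calc _ ≤ C * (2 * Real.pi * (r * ‖z‖)) ^ (-((k : ℝ) - 1) / 2) := h3
      _ ≤ C * (r * ‖z‖) ^ (-((k : ℝ) - 1) / 2) := by gcongr
      _ ≤ _ := by nlinarith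

/-- the coefficients of the majorant -/
noncomputable def cf (k : ℕ) (C δ r : ℝ) (j : ℕ) : ℝ :=
  Real.exp Real.pi * δ ^ k * C * (2 : ℝ) ^ ((j : ℝ) * (-((k : ℝ) - 1) / 2)) *
    Real.exp (-(Real.pi * (δ / r) ^ 2 * 4 ^ j))

/-- the majorant -/
noncomputable def hh (k : ℕ) (C δ r : ℝ) (z : E k) : ℝ≥0∞ :=
  ∑' j : ℕ, (ball (0 : E k) (2 ^ (j + 1) / r)).indicator
    (fun _ => ENNReal.ofReal (cf k C δ r j)) z

lemma hh_meas (k : ℕ) (C δ r : ℝ) : Measurable (hh k C δ r) := by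
  unfold hh
  exact Measurable.tsum fun j => measurable_const.indicator measurableSet_ball

lemma hh_symm (k : ℕ) (C δ r : ℝ) (z : E k) : hh k C δ r (-z) = hh k C δ r z := by
  unfold hh
  congr 1
  funext j
  by_cases h : z ∈ ball (0 : E k) (2 ^ (j + 1) / r)
  · have h' : -z ∈ ball (0 : E k) (2 ^ (j + 1) / r) := by
      rw [mem_ball_zero_iff, norm_neg]
      exact mem_ball_zero_iff.1 h
    rw [indicator_of_mem h, indicator_of_mem h']
  · have h' : -z ∉ ball (0 : E k) (2 ^ (j + 1) / r) := by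
      rw [mem_ball_zero_iff, norm_neg]
      exact fun h0 => h (mem_ball_zero_iff.2 h0)
    rw [indicator_of_notMem h, indicator_of_notMem h']

/-- the majorant majorizes -/
lemma hh_maj {k : ℕ} (hk : 2 ≤ k) {C δ r : ℝ} (hC : 0 < C) (hδ : 0 < δ) (hδr : δ ≤ r) (z : E k)
    {σ : ℝ} (hσ0 : 0 ≤ σ) (h1 : σ ≤ C) (h2 : z ≠ 0 → σ ≤ C * (r * ‖z‖) ^ (-((k : ℝ) - 1) / 2)) :
    ENNReal.ofReal (δ ^ k * Real.exp (-(Real.pi * δ ^ 2 * ‖z‖ ^ 2)) * σ) ≤ hh k C δ r z := by
  have hr : 0 < r := hδ.trans_le hδr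
  have hpi := Real.pi_pos
  have hs1 : δ / r ≤ 1 := (div_le_one hr).2 hδr
  have hs0 : 0 < δ / r := by positivity
  have key : ∀ j : ℕ, ‖z‖ < 2 ^ (j + 1) / r →
      δ ^ k * Real.exp (-(Real.pi * δ ^ 2 * ‖z‖ ^ 2)) * σ ≤ cf k C δ r j →
      ENNReal.ofReal (δ ^ k * Real.exp (-(Real.pi * δ ^ 2 * ‖z‖ ^ 2)) * σ) ≤ hh k C δ r z := by
    intro j hj hle
    unfold hh
    refine le_trans ?_ (ENNReal.le_tsum j)
    rw [indicator_of_mem (mem_ball_zero_iff.2 hj)]
    exact ENNReal.ofReal_le_ofReal hle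
  by_cases hz : r * ‖z‖ < 1
  · apply key 0
    · rw [lt_div_iff₀ hr]
      norm_num
      linarith
    · unfold cf
      have e1 : Real.exp (-(Real.pi * δ ^ 2 * ‖z‖ ^ 2)) ≤ 1 := by
        rw [Real.exp_le_one_iff]
        have : 0 ≤ Real.pi * δ ^ 2 * ‖z‖ ^ 2 := by positivity
        linarith
      have e2 : Real.exp (-Real.pi) ≤ Real.exp (-(Real.pi * (δ / r) ^ 2 * 4 ^ 0)) := by
        rw [Real.exp_le_exp, pow_zero, mul_one]
        have : (δ / r) ^ 2 ≤ 1 := pow_le_one₀ hs0.le hs1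
        nlinarith
      have e3 : (2 : ℝ) ^ (((0 : ℕ) : ℝ) * (-((k : ℝ) - 1) / 2)) = 1 := by
        rw [Nat.cast_zero, zero_mul, Real.rpow_zero]
      rw [e3, mul_one]
      calc δ ^ k * Real.exp (-(Real.pi * δ ^ 2 * ‖z‖ ^ 2)) * σ ≤ δ ^ k * 1 * C := by gcongr
        _ = Real.exp Real.pi * δ ^ k * C * Real.exp (-Real.pi) := by
            have : Real.exp Real.pi * Real.exp (-Real.pi) = 1 := by
              rw [← Real.exp_add, add_neg_cancel, Real.exp_zero]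
            linear_combination (-(δ ^ k * C)) * this
        _ ≤ _ := by gcongr
  · push Not at hz
    obtain ⟨j, hj1, hj2⟩ := exists_nat_pow_near hz (by norm_num : (1 : ℝ) < 2)
    have hz0 : 0 < ‖z‖ := by
      by_contra h0
      push Not at h0
      have : ‖z‖ = 0 := le_antisymm h0 (norm_nonneg _)
      rw [this, mul_zero] at hz
      linarith
    apply key j
    · rw [lt_div_iff₀ hr, mul_comm]
      exact hj2
    · unfold cf
      have hσ := h2 (norm_pos_iff.1 hz0)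
      have hexp : -((k : ℝ) - 1) / 2 ≤ 0 := by
        have : (2 : ℝ) ≤ k := by exact_mod_cast hk
        linarith
      have e1 : (r * ‖z‖) ^ (-((k : ℝ) - 1) / 2) ≤ (2 : ℝ) ^ ((j : ℝ) * (-((k : ℝ) - 1) / 2)) := by
        rw [Real.rpow_mul (by norm_num), Real.rpow_natCast]
        exact Real.rpow_le_rpow_of_nonpos (by positivity) hj1 hexp
      have e2 : Real.exp (-(Real.pi * δ ^ 2 * ‖z‖ ^ 2)) ≤
          Real.exp (-(Real.pi * (δ / r) ^ 2 * 4 ^ j)) := by
        rw [Real.exp_le_exp, neg_le_neg_iff]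
        have e3 : (4 : ℝ) ^ j = (2 ^ j) ^ 2 := by
          rw [← pow_mul, mul_comm, pow_mul]
          norm_num
        have e4 : ((2 : ℝ) ^ j) ^ 2 ≤ (r * ‖z‖) ^ 2 := pow_le_pow_left₀ (by positivity) hj1 2
        calc Real.pi * (δ / r) ^ 2 * 4 ^ j ≤ Real.pi * (δ / r) ^ 2 * (r * ‖z‖) ^ 2 := by
              rw [e3]
              gcongr
          _ = Real.pi * δ ^ 2 * ‖z‖ ^ 2 := by
              field_simp
      have e5 : 1 ≤ Real.exp Real.pi := Real.one_le_exp hpi.le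
      calc δ ^ k * Real.exp (-(Real.pi * δ ^ 2 * ‖z‖ ^ 2)) * σ ≤
            δ ^ k * Real.exp (-(Real.pi * (δ / r) ^ 2 * 4 ^ j)) *
              (C * (2 : ℝ) ^ ((j : ℝ) * (-((k : ℝ) - 1) / 2))) := by
            gcongr
            exact hσ.trans (mul_le_mul_of_nonneg_left e1 hC.le)
        _ = 1 * (δ ^ k * C * (2 : ℝ) ^ ((j : ℝ) * (-((k : ℝ) - 1) / 2)) *
              Real.exp (-(Real.pi * (δ / r) ^ 2 * 4 ^ j))) := by ring
        _ ≤ Real.exp Real.pi * (δ ^ k * C * (2 : ℝ) ^ ((j : ℝ) * (-((k : ℝ) - 1) / 2)) *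
              Real.exp (-(Real.pi * (δ / r) ^ 2 * 4 ^ j))) := by gcongr
        _ = _ := by ring

/-- Schur bound of the majorant -/
lemma hh_schur {k : ℕ} {C A α β δ r D : ℝ} (hC : 0 < C) (hA : 0 ≤ A) (hδ : 0 < δ) (hδr : δ ≤ r)
    (hr2 : r ≤ 2) (hβ : α - ((k : ℝ) - 1) / 2 ≤ β)
    (hD : ∀ s : ℝ, 0 < s → ∀ N : ℕ, ∑ j ∈ Finset.range N, (2 : ℝ) ^ ((j : ℝ) * β) *
      Real.exp (-(Real.pi * s ^ 2 * 4 ^ j)) ≤ D * s ^ (-β))
    (ν : Measure (E k)) (hν : Growth ν α A) (y : E k) :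
    ∫⁻ y', hh k C δ r (y - y') ∂ν ≤ ENNReal.ofReal
      (Real.exp Real.pi * δ ^ k * C * A * 2 ^ α * r ^ (-α) * (D * (δ / r) ^ (-β))) := by
  have hr : 0 < r := hδ.trans_le hδr
  have hpi := Real.pi_pos
  set P : ℝ := Real.exp Real.pi * δ ^ k * C * A * 2 ^ α * r ^ (-α) with hP
  have hP0 : 0 ≤ P := by positivity
  unfold hh
  rw [lintegral_tsum (fun j => by
    have h1 : Measurable (fun y' : E k => y - y') := by fun_prop
    exact ((measurable_const.indicator measurableSet_ball).comp h1).aemeasurable)]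
  have hterm : ∀ j : ℕ, ∫⁻ y', (ball (0 : E k) (2 ^ (j + 1) / r)).indicator
      (fun _ => ENNReal.ofReal (cf k C δ r j)) (y - y') ∂ν ≤
      ENNReal.ofReal (P * ((2 : ℝ) ^ ((j : ℝ) * β) *
        Real.exp (-(Real.pi * (δ / r) ^ 2 * 4 ^ j)))) := by
    intro j
    have e1 : ∀ y' : E k, (ball (0 : E k) (2 ^ (j + 1) / r)).indicator
        (fun _ => ENNReal.ofReal (cf k C δ r j)) (y - y') =
        (ball y (2 ^ (j + 1) / r)).indicator (fun _ => ENNReal.ofReal (cf k C δ r j)) y' := by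
      intro y'
      have h : y - y' ∈ ball (0 : E k) (2 ^ (j + 1) / r) ↔ y' ∈ ball y (2 ^ (j + 1) / r) := by
        rw [mem_ball_zero_iff, mem_ball, dist_comm, dist_eq_norm]
      by_cases h' : y' ∈ ball y (2 ^ (j + 1) / r)
      · rw [indicator_of_mem h', indicator_of_mem (h.2 h')]
      · rw [indicator_of_notMem h', indicator_of_notMem (fun h0 => h' (h.1 h0))]
    simp_rw [e1]
    rw [lintegral_indicator measurableSet_ball, setLIntegral_const]
    have hR1 : 1 ≤ (2 : ℝ) ^ (j + 1) / r := by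
      rw [le_div_iff₀ hr, one_mul]
      refine hr2.trans ?_
      have : (2 : ℝ) ^ 1 ≤ 2 ^ (j + 1) := pow_le_pow_right₀ (by norm_num) (by omega)
      linarith
    have h2 := hν y _ hR1
    have hcf : 0 ≤ cf k C δ r j := by unfold cf; positivity
    refine (mul_le_mul_right h2 _).trans ?_
    rw [← ENNReal.ofReal_mul hcf]
    apply ENNReal.ofReal_le_ofReal
    have e2 : ((2 : ℝ) ^ (j + 1) / r) ^ α = 2 ^ α * r ^ (-α) * (2 : ℝ) ^ ((j : ℝ) * α) := by
      rw [Real.div_rpow (by positivity) hr.le, pow_succ, Real.mul_rpow (by positivity) (by norm_num),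
        Real.rpow_neg hr.le, Real.rpow_mul (by norm_num) (j : ℝ) α, Real.rpow_natCast]
      ring
    have e3 : (2 : ℝ) ^ ((j : ℝ) * (-((k : ℝ) - 1) / 2)) * (2 : ℝ) ^ ((j : ℝ) * α) ≤
        (2 : ℝ) ^ ((j : ℝ) * β) := by
      rw [← Real.rpow_add (by norm_num)]
      apply Real.rpow_le_rpow_of_exponent_le (by norm_num)
      have hj : (0 : ℝ) ≤ j := Nat.cast_nonneg j
      have : (j : ℝ) * (-((k : ℝ) - 1) / 2) + (j : ℝ) * α = (j : ℝ) * (α - ((k : ℝ) - 1) / 2) := by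
        ring
      rw [this]
      exact mul_le_mul_of_nonneg_left hβ hj
    unfold cf
    rw [e2]
    calc Real.exp Real.pi * δ ^ k * C * (2 : ℝ) ^ ((j : ℝ) * (-((k : ℝ) - 1) / 2)) *
          Real.exp (-(Real.pi * (δ / r) ^ 2 * 4 ^ j)) *
          (A * (2 ^ α * r ^ (-α) * (2 : ℝ) ^ ((j : ℝ) * α)))
        = P * (((2 : ℝ) ^ ((j : ℝ) * (-((k : ℝ) - 1) / 2)) * (2 : ℝ) ^ ((j : ℝ) * α)) *
          Real.exp (-(Real.pi * (δ / r) ^ 2 * 4 ^ j))) := by
          rw [hP]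
          ring
      _ ≤ P * ((2 : ℝ) ^ ((j : ℝ) * β) * Real.exp (-(Real.pi * (δ / r) ^ 2 * 4 ^ j))) := by
          gcongr
  refine (ENNReal.tsum_le_tsum hterm).trans ?_
  refine ENNReal.tsum_le_of_sum_range_le fun N => ?_
  rw [← ENNReal.ofReal_sum_of_nonneg (fun j _ => by positivity), ← Finset.mul_sum]
  apply ENNReal.ofReal_le_ofReal
  exact mul_le_mul_of_nonneg_left (hD (δ / r) (by positivity) N) hP0

/-- the main estimate -/
theorem main (hGAU : S_GAU) (hSCH : S_SCH) : S_ANN := by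
  intro k hk α β hα hβ0 hβ
  have := sg_finite k
  obtain ⟨c, hc, hlow⟩ := ann_low k hk
  obtain ⟨C, hC, hsig⟩ := sig k hk
  obtain ⟨D, hD, hsum⟩ := sum_bound hβ0
  refine ⟨1 / c * Real.exp Real.pi * C * 2 ^ α * D, by positivity, ?_⟩
  intro A ν hA hsf hν δ r hδ hδr hr2 g hgm hgi
  have hr : 0 < r := hδ.trans_le hδr
  have hpi := Real.pi_pos
  set M0 : ℝ := ∫ ξ, ‖g ξ‖ ∂ν with hM0
  have hM00 : 0 ≤ M0 := integral_nonneg fun _ => norm_nonneg _
  have hcont := hat_cont hgm hgi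
  -- Gaussian averages
  set I : E k → ℝ := fun x => ∫ w, Real.exp (-(Real.pi * ‖w - r • x‖ ^ 2 / δ ^ 2)) *
    ‖hat ν g w‖ ^ 2 with hI
  have hIint : ∀ x : E k, Integrable (fun w : E k =>
      Real.exp (-(Real.pi * ‖w - r • x‖ ^ 2 / δ ^ 2)) * ‖hat ν g w‖ ^ 2) := by
    intro x
    refine ((gauss_int (r • x) hδ).mul_const (M0 ^ 2)).mono' ?_ ?_
    · refine Continuous.aestronglyMeasurable ?_
      fun_prop
    · refine Filter.Eventually.of_forall fun w => ?_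
      rw [Real.norm_of_nonneg (by positivity)]
      have := hat_le (ν := ν) (g := g) w
      gcongr
  have hIeq : ∀ x : E k, ∫⁻ w, ‖hat ν g w‖ₑ ^ 2 *
      ENNReal.ofReal (Real.exp (-(Real.pi * ‖w - r • x‖ ^ 2 / δ ^ 2))) = ENNReal.ofReal (I x) := by
    intro x
    rw [hI]
    simp only
    rw [ofReal_integral_eq_lintegral_ofReal (hIint x)
      (Filter.Eventually.of_forall fun w => by positivity)]
    refine lintegral_congr fun w => ?_
    rw [ENNReal.ofReal_mul (Real.exp_pos _).le, ENNReal.ofReal_pow (norm_nonneg _),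
      ofReal_norm, mul_comm]
  have hI0 : ∀ x, 0 ≤ I x := fun x => integral_nonneg fun w => by positivity
  -- the kernel
  set F : E k → E k × E k → ℂ := fun x p => g p.1 * (starRingEnd ℂ) (g p.2) *
      (ex ⟪r • x, p.1 - p.2⟫ *
        ((δ ^ k * Real.exp (-(Real.pi * δ ^ 2 * ‖p.1 - p.2‖ ^ 2)) : ℝ) : ℂ)) with hF
  have hFI : ∀ x, ((I x : ℝ) : ℂ) = ∫ p, F x p ∂(ν.prod ν) := fun x =>
    hGAU k ν g hsf hgm hgi (r • x) δ hδ
  have hFm : Measurable (Function.uncurry F) := by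
    have m1 : Measurable (fun q : E k × (E k × E k) => g q.2.1) := hgm.comp (by fun_prop)
    have m2 : Measurable (fun q : E k × (E k × E k) => (starRingEnd ℂ) (g q.2.2)) :=
      Complex.continuous_conj.measurable.comp (hgm.comp (by fun_prop))
    have m3 : Measurable (fun q : E k × (E k × E k) => ex ⟪r • q.1, q.2.1 - q.2.2⟫) :=
      (ex_cont.comp (by fun_prop)).measurable
    have m4 : Measurable (fun q : E k × (E k × E k) =>
        ((δ ^ k * Real.exp (-(Real.pi * δ ^ 2 * ‖q.2.1 - q.2.2‖ ^ 2)) : ℝ) : ℂ)) := by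
      refine Continuous.measurable ?_
      fun_prop
    exact (m1.mul m2).mul (m3.mul m4)
  have hFint : Integrable (Function.uncurry F) ((sg k).prod (ν.prod ν)) := by
    have h1 : Integrable (fun p : E k × E k => ‖g p.1‖ * ‖g p.2‖) (ν.prod ν) :=
      hgi.norm.mul_prod hgi.norm
    have h2 : Integrable (fun q : E k × (E k × E k) => (δ ^ k) * (‖g q.2.1‖ * ‖g q.2.2‖))
        ((sg k).prod (ν.prod ν)) :=
      (integrable_const (δ ^ k)).mul_prod h1
    refine h2.mono' hFm.aestronglyMeasurable (Filter.Eventually.of_forall fun q => ?_)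
    show ‖g q.2.1 * (starRingEnd ℂ) (g q.2.2) * (ex ⟪r • q.1, q.2.1 - q.2.2⟫ *
        ((δ ^ k * Real.exp (-(Real.pi * δ ^ 2 * ‖q.2.1 - q.2.2‖ ^ 2)) : ℝ) : ℂ))‖ ≤ _
    rw [norm_mul, norm_mul, norm_mul, ex_norm, one_mul, RCLike.norm_conj, Complex.norm_real,
      Real.norm_of_nonneg (by positivity)]
    have h3 : Real.exp (-(Real.pi * δ ^ 2 * ‖q.2.1 - q.2.2‖ ^ 2)) ≤ 1 := by
      rw [Real.exp_le_one_iff]
      have : 0 ≤ Real.pi * δ ^ 2 * ‖q.2.1 - q.2.2‖ ^ 2 := by positivity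
      linarith
    calc ‖g q.2.1‖ * ‖g q.2.2‖ * (δ ^ k * Real.exp (-(Real.pi * δ ^ 2 * ‖q.2.1 - q.2.2‖ ^ 2))) ≤
          ‖g q.2.1‖ * ‖g q.2.2‖ * (δ ^ k * 1) := by gcongr
      _ = _ := by ring
  have hIi : Integrable I (sg k) := by
    have h1 : Integrable (fun x => ∫ p, F x p ∂(ν.prod ν)) (sg k) := hFint.integral_prod_left
    simp_rw [← hFI] at h1
    exact h1.re
  have hswap : ∫ x, (∫ p, F x p ∂(ν.prod ν)) ∂(sg k) = ∫ p, (∫ x, F x p ∂(sg k)) ∂(ν.prod ν) :=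
    integral_integral_swap hFint
  -- the bound of the inner integral
  have hinner : ∀ p : E k × E k, ‖∫ x, F x p ∂(sg k)‖ₑ ≤
      ‖g p.1‖ₑ * ‖g p.2‖ₑ * hh k C δ r (p.1 - p.2) := by
    intro p
    have e1 : ∫ x, F x p ∂(sg k) = (g p.1 * (starRingEnd ℂ) (g p.2) *
        ((δ ^ k * Real.exp (-(Real.pi * δ ^ 2 * ‖p.1 - p.2‖ ^ 2)) : ℝ) : ℂ)) *
        ∫ x, ex ⟪r • x, p.1 - p.2⟫ ∂(sg k) := by
      rw [← integral_const_mul]
      refine integral_congr_ae (Filter.Eventually.of_forall fun x => ?_)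
      simp only [hF]
      ring
    have h1 := hsig r (p.1 - p.2) hr
    have h2 := hh_maj hk hC hδ hδr (p.1 - p.2) (norm_nonneg _) h1.1 h1.2
    rw [e1, enorm_mul, enorm_mul, enorm_mul, mul_assoc (‖g p.1‖ₑ * _)]
    have e2 : ‖(starRingEnd ℂ) (g p.2)‖ₑ = ‖g p.2‖ₑ := by
      rw [← ofReal_norm, RCLike.norm_conj, ofReal_norm]
    rw [e2]
    refine mul_le_mul_right ?_ _
    refine le_trans (le_of_eq ?_) h2
    rw [ENNReal.ofReal_mul (by positivity), ofReal_norm, ← ofReal_norm,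
      Complex.norm_real, Real.norm_of_nonneg (by positivity)]
  have htot : ∫⁻ x, ENNReal.ofReal (I x) ∂(sg k) ≤ ENNReal.ofReal
      (Real.exp Real.pi * δ ^ k * C * A * 2 ^ α * r ^ (-α) * (D * (δ / r) ^ (-β))) *
      ∫⁻ y, ‖g y‖ₑ ^ 2 ∂ν := by
    rw [← ofReal_integral_eq_lintegral_ofReal hIi (Filter.Eventually.of_forall hI0)]
    have e1 : ENNReal.ofReal (∫ x, I x ∂(sg k)) = ‖((∫ x, I x ∂(sg k) : ℝ) : ℂ)‖ₑ := by
      rw [← ofReal_norm, Complex.norm_real,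
        Real.norm_of_nonneg (integral_nonneg hI0)]
    have e3 : ((∫ x, I x ∂(sg k) : ℝ) : ℂ) = ∫ x, ((I x : ℝ) : ℂ) ∂(sg k) :=
      (integral_ofReal (𝕜 := ℂ)).symm
    rw [e1, e3]
    have e2 : ∫ x, ((I x : ℝ) : ℂ) ∂(sg k) = ∫ x, (∫ p, F x p ∂(ν.prod ν)) ∂(sg k) :=
      integral_congr_ae (Filter.Eventually.of_forall hFI)
    rw [e2, hswap]
    refine (enorm_integral_le_lintegral_enorm _).trans ((lintegral_mono hinner).trans ?_)
    exact hSCH k ν g (hh k C δ r) hsf hgm (hh_meas k C δ r) (hh_symm k C δ r) _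
      (fun y => hh_schur hC hA hδ hδr hr2 hβ hsum ν hν y)
  -- the annulus
  set s : ℝ := δ / r with hs
  have hs0 : 0 < s := by positivity
  have hcs : 0 < c * s ^ (k - 1) := by positivity
  have hann : ∫⁻ w in {w : E k | r - δ ≤ ‖w‖ ∧ ‖w‖ ≤ r}, ‖hat ν g w‖ₑ ^ 2 ≤
      ENNReal.ofReal (1 / (c * s ^ (k - 1))) * ∫⁻ x, ENNReal.ofReal (I x) ∂(sg k) := by
    have hmeas : MeasurableSet {w : E k | r - δ ≤ ‖w‖ ∧ ‖w‖ ≤ r} :=
      (measurableSet_le measurable_const measurable_norm).inter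
        (measurableSet_le measurable_norm measurable_const)
    have hKm : Measurable (Function.uncurry fun (w x : E k) => ‖hat ν g w‖ₑ ^ 2 *
        ENNReal.ofReal (Real.exp (-(Real.pi * ‖w - r • x‖ ^ 2 / δ ^ 2)))) := by
      have m1 : Measurable (fun q : E k × E k => ‖hat ν g q.1‖ₑ ^ 2) :=
        ((hcont.measurable.comp measurable_fst).enorm).pow_const 2
      have m2 : Measurable (fun q : E k × E k =>
          ENNReal.ofReal (Real.exp (-(Real.pi * ‖q.1 - r • q.2‖ ^ 2 / δ ^ 2)))) := by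
        refine ENNReal.measurable_ofReal.comp (Continuous.measurable ?_)
        fun_prop
      exact m1.mul m2
    calc ∫⁻ w in {w : E k | r - δ ≤ ‖w‖ ∧ ‖w‖ ≤ r}, ‖hat ν g w‖ₑ ^ 2
        ≤ ∫⁻ w in {w : E k | r - δ ≤ ‖w‖ ∧ ‖w‖ ≤ r}, ENNReal.ofReal (1 / (c * s ^ (k - 1))) *
          ∫⁻ x, ‖hat ν g w‖ₑ ^ 2 *
            ENNReal.ofReal (Real.exp (-(Real.pi * ‖w - r • x‖ ^ 2 / δ ^ 2))) ∂(sg k) := by
          refine setLIntegral_mono' hmeas fun w hw => ?_
          have h1 := hlow δ r hδ hδr w hw.1 hw.2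
          rw [lintegral_const_mul _ (by
            refine ENNReal.measurable_ofReal.comp (Continuous.measurable ?_)
            fun_prop)]
          calc ‖hat ν g w‖ₑ ^ 2 = ENNReal.ofReal (1 / (c * s ^ (k - 1))) * (‖hat ν g w‖ₑ ^ 2 *
                ENNReal.ofReal (c * s ^ (k - 1))) := by
                rw [mul_left_comm, ← ENNReal.ofReal_mul (by positivity), one_div_mul_cancel hcs.ne',
                  ENNReal.ofReal_one, mul_one]
            _ ≤ _ := by gcongr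
      _ ≤ ∫⁻ w, ENNReal.ofReal (1 / (c * s ^ (k - 1))) * ∫⁻ x, ‖hat ν g w‖ₑ ^ 2 *
            ENNReal.ofReal (Real.exp (-(Real.pi * ‖w - r • x‖ ^ 2 / δ ^ 2))) ∂(sg k) :=
          setLIntegral_le_lintegral _ _
      _ = ENNReal.ofReal (1 / (c * s ^ (k - 1))) * ∫⁻ w, ∫⁻ x, ‖hat ν g w‖ₑ ^ 2 *
            ENNReal.ofReal (Real.exp (-(Real.pi * ‖w - r • x‖ ^ 2 / δ ^ 2))) ∂(sg k) := by
          rw [lintegral_const_mul' _ _ ENNReal.ofReal_ne_top]
      _ = ENNReal.ofReal (1 / (c * s ^ (k - 1))) * ∫⁻ x, (∫⁻ w, ‖hat ν g w‖ₑ ^ 2 *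
            ENNReal.ofReal (Real.exp (-(Real.pi * ‖w - r • x‖ ^ 2 / δ ^ 2)))) ∂(sg k) := by
          rw [lintegral_lintegral_swap hKm.aemeasurable]
      _ = _ := by
          congr 1
          exact lintegral_congr hIeq
  refine hann.trans ((mul_le_mul_right htot _).trans (le_of_eq ?_))
  rw [← mul_assoc, ← ENNReal.ofReal_mul (by positivity)]
  congr 2
  have e1 : r ^ ((k : ℝ) - 1 - α) = r ^ (k - 1) * r ^ (-α) := by
    rw [← Real.rpow_natCast r (k - 1), ← Real.rpow_add hr, Nat.cast_sub (by omega)]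
    congr 1
    push_cast
    ring
  have e2 : (r / δ) ^ β = s ^ (-β) := by
    rw [hs, Real.rpow_neg (by positivity), ← Real.inv_rpow (by positivity), inv_div]
  have e3 : δ ^ k = δ ^ (k - 1) * δ := by
    rw [← pow_succ]
    congr 1
    omega
  have e4 : s ^ (k - 1) = δ ^ (k - 1) / r ^ (k - 1) := by
    rw [hs, div_pow]
  rw [e1, e2, e3, e4]
  field_simp

end Pool.Agent.N951.CY
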